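import Pool.Agent.Q28.KI.Witt

/-!
# The K3 lattice

The rational cohomology `H²` of a K3 surface with its intersection form, integral and primitive
classes, and families of classes which can be moved into a given position by rational isometries.
-/

namespace Pool.Agent.Q28.KI

open Matrix

/-- index set of the standard basis of the K3 lattice `U³ ⊕ E₈(-1)²` -/
abbrev Idx : Type := (Fin 3 × Fin 2) ⊕ (Fin 2 × Fin 8)

/-- the matrix of the intersection form of the K3 lattice `U³ ⊕ E₈(-1)²` -/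
def k3 : Matrix Idx Idx ℤ :=
  Matrix.fromBlocks (Matrix.kroneckerMap (· * ·) (1 : Matrix (Fin 3) (Fin 3) ℤ) !![0, 1; 1, 0]) 0 0
    (-Matrix.kroneckerMap (· * ·) (1 : Matrix (Fin 2) (Fin 2) ℤ) CartanMatrix.E₈)

/-- the rational cohomology `H²(X, ℚ)` of a marked K3 surface -/
abbrev V : Type := Idx → ℚ

/-- the intersection form on `H²(X, ℚ)` -/
noncomputable def B : LinearMap.BilinForm ℚ V := Matrix.toBilin' (k3.map ((↑) : ℤ → ℚ))

/-- classes in `H²(X, ℤ)` -/
def Integral (v : V) : Prop := ∀ i, ∃ n : ℤ, v i = n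

/-- integral classes which are not divisible in `H²(X, ℤ)` -/
def Primitive (v : V) : Prop :=
  Integral v ∧ ∀ (n : ℤ) (w : V), Integral w → v = (n : ℚ) • w → n = 1 ∨ n = -1

theorem k3_symm : k3.transpose = k3 := by
  rw [k3, Matrix.fromBlocks_transpose, Matrix.transpose_zero, Matrix.transpose_zero,
    Matrix.transpose_neg]
  congr 1
  · ext ⟨i, j⟩ ⟨i', j'⟩
    simp only [Matrix.transpose_apply, Matrix.kroneckerMap_apply]
    congr 1
    · simp only [Matrix.one_apply, eq_comm]
    · fin_cases j <;> fin_cases j' <;> rfl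
  · congr 1
    ext ⟨i, j⟩ ⟨i', j'⟩
    simp only [Matrix.transpose_apply, Matrix.kroneckerMap_apply]
    congr 1
    · simp only [Matrix.one_apply, eq_comm]
    · exact congrFun (congrFun CartanMatrix.E₈_transpose j) j'

theorem B_symm (x y : V) : B x y = B y x := by
  rw [B, Matrix.toBilin'_apply, Matrix.toBilin'_apply, Finset.sum_comm]
  refine Finset.sum_congr rfl fun i _ => Finset.sum_congr rfl fun j _ => ?_
  have : k3 j i = k3 i j := congrFun (congrFun k3_symm i) j
  rw [Matrix.map_apply, Matrix.map_apply, this]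
  ring

/-- the standard basis `e`, `f` of the first hyperbolic plane `U` of the K3 lattice -/
def e : V := Pi.single (Sum.inl (0, 0)) 1

/-- see `e` -/
def f : V := Pi.single (Sum.inl (0, 1)) 1

theorem B_single (i j : Idx) : B (Pi.single i 1) (Pi.single j 1) = k3 i j := by
  rw [B, Matrix.toBilin'_single, Matrix.map_apply]

theorem B_ee : B e e = 0 := by
  rw [e, B_single]
  norm_num [k3]

theorem B_ff : B f f = 0 := by
  rw [f, B_single]
  norm_num [k3]

theorem B_ef : B e f = 1 := by
  rw [e, f, B_single]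
  norm_num [k3]

theorem B_fe : B f e = 1 := by rw [B_symm, B_ef]

theorem integral_e : Integral e := fun i => by
  by_cases h : i = Sum.inl (0, 0)
  · exact ⟨1, by rw [e, h, Pi.single_eq_same, Int.cast_one]⟩
  · exact ⟨0, by rw [e, Pi.single_eq_of_ne h, Int.cast_zero]⟩

theorem integral_f : Integral f := fun i => by
  by_cases h : i = Sum.inl (0, 1)
  · exact ⟨1, by rw [f, h, Pi.single_eq_same, Int.cast_one]⟩
  · exact ⟨0, by rw [f, Pi.single_eq_of_ne h, Int.cast_zero]⟩

theorem Integral.add {v w : V} (hv : Integral v) (hw : Integral w) : Integral (v + w) := fun i => by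
  obtain ⟨a, ha⟩ := hv i
  obtain ⟨b, hb⟩ := hw i
  exact ⟨a + b, by rw [Pi.add_apply, ha, hb, Int.cast_add]⟩

theorem Integral.smul {v : V} (hv : Integral v) (n : ℤ) : Integral ((n : ℚ) • v) := fun i => by
  obtain ⟨a, ha⟩ := hv i
  exact ⟨n * a, by rw [Pi.smul_apply, ha, smul_eq_mul, Int.cast_mul]⟩

/-- the class `e + d f`, of degree `2 d` -/
def deg (d : ℕ) : V := e + (d : ℚ) • f

theorem B_deg (d : ℕ) : B (deg d) (deg d) = 2 * d := by
  rw [deg]
  simp only [map_add, map_smul, LinearMap.add_apply, LinearMap.smul_apply, B_ee, B_ff, B_ef, B_fe,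
    smul_eq_mul]
  ring

theorem primitive_deg (d : ℕ) : Primitive (deg d) := by
  refine ⟨integral_e.add ?_, fun n w hw h => ?_⟩
  · exact_mod_cast integral_f.smul (d : ℤ)
  · obtain ⟨a, ha⟩ := hw (Sum.inl (0, 0))
    have h1 := congrFun h (Sum.inl (0, 0))
    rw [deg, Pi.add_apply, e, Pi.single_eq_same, Pi.smul_apply, Pi.smul_apply, f,
      Pi.single_eq_of_ne (by decide), ha, smul_eq_mul, smul_eq_mul, mul_zero, add_zero] at h1
    have h2 : n * a = 1 := by exact_mod_cast h1.symm
    exact Int.isUnit_iff.1 (IsUnit.of_mul_eq_one a h2)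

/-- rational vectors of positive norm can be moved to multiples of the classes `deg d` -/
theorem exists_degree {D : Set ℕ}
    (hD : ∀ n : ℕ, 0 < n → ∃ d ∈ D, ∃ a b : ℕ, 0 < a ∧ 0 < b ∧ a ^ 2 * n = b ^ 2 * d)
    {q : ℚ} (hq : 0 < q) : ∃ d ∈ D, 0 < d ∧ ∃ c : ℚ, c ≠ 0 ∧ c ^ 2 * q = 2 * d := by
  -- `q = num / den`, same square class as `num * den`
  have hnum : 0 < q.num := Rat.num_pos.2 hq
  obtain ⟨n, hn⟩ := Int.eq_ofNat_of_zero_le hnum.le
  have hn0 : 0 < n := by
    rw [hn] at hnum
    exact_mod_cast hnum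
  obtain ⟨d, hd, a, b, ha, hb, hab⟩ := hD (2 * (n * q.den)) (by positivity)
  have hd0 : 0 < d := by
    rcases Nat.eq_zero_or_pos d with h | h
    · exfalso
      rw [h, mul_zero] at hab
      have : 0 < a ^ 2 * (2 * (n * q.den)) := by positivity
      omega
    · exact h
  refine ⟨d, hd, hd0, 2 * a * q.den / b, by positivity, ?_⟩
  have hqe : q * q.den = n := by
    have h1 : q * q.den = q.num := Rat.mul_den_eq_num q
    rw [h1, hn]
    rfl
  have hab' : (a : ℚ) ^ 2 * (2 * (n * q.den)) = (b : ℚ) ^ 2 * d := by exact_mod_cast hab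
  have hb' : (b : ℚ) ≠ 0 := by positivity
  rw [div_pow, div_mul_eq_mul_div, div_eq_iff (by positivity)]
  calc (2 * (a : ℚ) * q.den) ^ 2 * q = 4 * (a : ℚ) ^ 2 * q.den * (q * q.den) := by ring
    _ = 2 * ((a : ℚ) ^ 2 * (2 * (n * q.den))) := by rw [hqe]; ring
    _ = 2 * d * (b : ℚ) ^ 2 := by rw [hab']; ring

end Pool.Agent.Q28.KI
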