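import Pool.Agent.Q28.KI.Lattice

/-!
# Isogenous K3 surfaces

K3 surfaces over the algebraic numbers with their periods and their groups of zero-cycles of degree
zero, and the consequences of the theorem of Huybrechts on the motives of isogenous K3 surfaces.
-/

namespace Pool.Agent.Q28.KI

open Matrix

universe u v

set_option linter.checkUnivs false

/-- K3 surfaces over the algebraic numbers. `CH X` is the rational vector space of the zero-cycle
classes of degree zero on `X`; `Per X` is the set of the periods `x ↦ ∫_x ω` of the nonzero regular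
2-forms `ω` of `X`, as functions on `H²(X, ℚ)` for the isometries of `H²(X, ℤ)` with the K3
lattice. -/
structure Surfaces where
  Surf : Type u
  CH : Surf → Type v
  [group : ∀ X, AddCommGroup (CH X)]
  [module : ∀ X, Module ℚ (CH X)]
  Per : Surf → Set (V →ₗ[ℚ] ℂ)

attribute [instance] Surfaces.group Surfaces.module

variable (T : Surfaces.{u, v})

/-- The known facts. `marked`: there are periods. `ample`: the class of an ample divisor has period
zero and positive self-intersection, and the form is negative on the nonzero rational divisor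
classes (the kernel of the period) orthogonal to it (Hodge index theorem). `isogeny`: if `p` is a
period of `X` and `g` a rational isometry then there is a K3 surface `X'` with the period `p ∘ g⁻¹`
(surjectivity of the period map), and the groups of zero-cycles of degree zero of `X` and `X'` are
isomorphic (Huybrechts). -/
structure Surfaces.Facts : Prop where
  marked : ∀ X, (T.Per X).Nonempty
  ample : ∀ X, ∀ p ∈ T.Per X, ∃ h : V, p h = 0 ∧ 0 < B h h ∧
    ∀ x : V, p x = 0 → B h x = 0 → x ≠ 0 → B x x < 0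
  isogeny : ∀ X, ∀ p ∈ T.Per X, ∀ g : V ≃ₗ[ℚ] V, IsIsometry B g →
    ∃ X', p ∘ₗ g.symm.toLinearMap ∈ T.Per X' ∧ Nonempty (T.CH X ≃ₗ[ℚ] T.CH X')

variable {T}

/-- the classes `v i` are rational combinations of divisor classes of `X` (for some isometry of
`H²(X, ℤ)` with the K3 lattice) -/
def Divisors (X : T.Surf) {r : ℕ} (v : Fin r → V) : Prop :=
  ∃ p ∈ T.Per X, ∀ i, p (v i) = 0

/-- `X` has rational divisor classes with the same intersection numbers as the `m i` -/
def HasGram (X : T.Surf) {r : ℕ} (m : Fin r → V) : Prop :=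
  ∃ v : Fin r → V, Divisors X v ∧ ∀ i j, B (v i) (v j) = B (m i) (m j)

/-- `X` has an indivisible divisor class of degree `2 d` -/
def HasDegree (X : T.Surf) (d : ℕ) : Prop :=
  ∃ p ∈ T.Per X, ∃ h : V, Primitive h ∧ p h = 0 ∧ B h h = 2 * d

/-- every zero-cycle of degree zero on `X` is torsion -/
def Trivial (X : T.Surf) : Prop := Subsingleton (T.CH X)

/-- the groups of zero-cycles of degree zero are isomorphic -/
def Same (X X' : T.Surf) : Prop := Nonempty (T.CH X ≃ₗ[ℚ] T.CH X')

theorem Same.trivial {X X' : T.Surf} (h : Same X X') : Trivial X ↔ Trivial X' := by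
  obtain ⟨e⟩ := h
  exact ⟨fun h1 => @Equiv.subsingleton _ _ e.symm.toEquiv h1,
    fun h1 => @Equiv.subsingleton _ _ e.toEquiv h1⟩

/-- moving divisor classes into a given position -/
theorem move (hT : T.Facts) (X : T.Surf) {r : ℕ} (m : Fin r → V)
    (hm : (Matrix.of fun i j => B (m i) (m j)).det ≠ 0) (h : HasGram X m) :
    ∃ X' : T.Surf, Same X X' ∧ Divisors X' m := by
  obtain ⟨v, ⟨p, hp, hv⟩, hB⟩ := h
  have hd : (Matrix.of fun i j => B (v i) (v j)).det ≠ 0 := by
    simp only [hB]
    exact hm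
  obtain ⟨g, hg, hgv⟩ := witt B_symm v m hd fun i j => (hB i j).symm
  obtain ⟨X', hX', hs⟩ := hT.isogeny X p hp g hg
  refine ⟨X', hs, _, hX', fun i => ?_⟩
  rw [LinearMap.comp_apply, LinearEquiv.coe_coe, ← hgv i, LinearEquiv.symm_apply_apply]
  exact hv i

/-- moving one divisor class of positive degree -/
theorem move_degree (hT : T.Facts) {D : Set ℕ}
    (hD : ∀ n : ℕ, 0 < n → ∃ d ∈ D, ∃ a b : ℕ, 0 < a ∧ 0 < b ∧ a ^ 2 * n = b ^ 2 * d)
    (X : T.Surf) : ∃ X' : T.Surf, Same X X' ∧ ∃ d ∈ D, HasDegree X' d := by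
  obtain ⟨p, hp⟩ := hT.marked X
  obtain ⟨h, hph, hpos, -⟩ := hT.ample X p hp
  obtain ⟨d, hd, hd0, c, hc, hcd⟩ := exists_degree hD hpos
  have hg : HasGram X ![deg d] := by
    refine ⟨![c • h], ⟨p, hp, fun i => ?_⟩, fun i j => ?_⟩
    · fin_cases i
      simp [hph]
    · fin_cases i
      fin_cases j
      simp only [Fin.zero_eta, Matrix.cons_val_zero, map_smul, LinearMap.smul_apply, smul_eq_mul,
        B_deg]
      rw [← hcd]
      ring
  obtain ⟨X', hs, q, hq, hX'⟩ := move hT X ![deg d] (by
    rw [Matrix.det_fin_one, Matrix.of_apply, Matrix.cons_val_zero, B_deg]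
    have : (0 : ℚ) < d := by exact_mod_cast hd0
    positivity) hg
  refine ⟨X', hs, d, hd, q, hq, deg d, primitive_deg d, ?_, B_deg d⟩
  exact hX' 0

/-- `X` has a nonzero rational divisor class of self-intersection zero -/
def Isotropic (X : T.Surf) : Prop := ∃ p ∈ T.Per X, ∃ v : V, v ≠ 0 ∧ p v = 0 ∧ B v v = 0

/-- the rational divisor classes have rank at least `r` -/
def RankAtLeast (X : T.Surf) (r : ℕ) : Prop :=
  ∃ p ∈ T.Per X, ∃ v : Fin r → V, LinearIndependent ℚ v ∧ ∀ i, p (v i) = 0

/-- elliptic surfaces -/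
theorem move_elliptic (hT : T.Facts) (X : T.Surf) (h : Isotropic X) :
    ∃ X' : T.Surf, Same X X' ∧ Divisors X' ![e, f] := by
  obtain ⟨p, hp, v, hv0, hv, hvv⟩ := h
  obtain ⟨w, hw, -, hodge⟩ := hT.ample X p hp
  have hvw : B v w ≠ 0 := fun h1 => by
    have h2 := hodge v hv (by rw [B_symm, h1]) hv0
    rw [hvv] at h2
    exact lt_irrefl _ h2
  refine move hT X ![e, f] ?_ ⟨![v, (1 / B v w) • (w - (B w w / (2 * B v w)) • v)],
    ⟨p, hp, fun i => ?_⟩, fun i j => ?_⟩
  · rw [Matrix.det_fin_two]
    simp only [Matrix.of_apply, Matrix.cons_val_zero, Matrix.cons_val_one, B_ee, B_ff, B_ef, B_fe]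
    norm_num
  · fin_cases i
    · exact hv
    · change p ((1 / B v w) • (w - (B w w / (2 * B v w)) • v)) = 0
      rw [map_smul, map_sub, map_smul, hv, hw, smul_zero, sub_zero, smul_zero]
  · have hwv : B w v = B v w := B_symm w v
    fin_cases i <;> fin_cases j
    · change B v v = B e e
      rw [hvv, B_ee]
    · change B v ((1 / B v w) • (w - (B w w / (2 * B v w)) • v)) = B e f
      rw [B_ef, map_smul, map_sub, map_smul, hvv, smul_eq_mul, smul_eq_mul, mul_zero, sub_zero,
        one_div_mul_cancel hvw]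
    · change B ((1 / B v w) • (w - (B w w / (2 * B v w)) • v)) v = B f e
      rw [B_fe, map_smul, map_sub, map_smul, LinearMap.smul_apply, LinearMap.sub_apply,
        LinearMap.smul_apply, hvv, hwv, smul_eq_mul, smul_eq_mul, mul_zero, sub_zero,
        one_div_mul_cancel hvw]
    · change B ((1 / B v w) • (w - (B w w / (2 * B v w)) • v))
        ((1 / B v w) • (w - (B w w / (2 * B v w)) • v)) = B f f
      rw [B_ff]
      simp only [map_smul, map_sub, LinearMap.smul_apply, LinearMap.sub_apply, smul_eq_mul, hvv,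
        hwv]
      field_simp
      ring

/-- the surfaces with the divisor classes `m i` decide for all the surfaces which have rational
divisor classes with the same intersection numbers -/
theorem gram_iff (hT : T.Facts) {r : ℕ} (m : Fin r → V)
    (hm : (Matrix.of fun i j => B (m i) (m j)).det ≠ 0) :
    (∀ X : T.Surf, HasGram X m → Trivial X) ↔ ∀ X : T.Surf, Divisors X m → Trivial X := by
  constructor
  · rintro h X ⟨p, hp, hX⟩
    exact h X ⟨m, ⟨p, hp, hX⟩, fun _ _ => rfl⟩
  · intro h X hX
    obtain ⟨X', hs, hX'⟩ := move hT X m hm hX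
    exact hs.trivial.2 (h X' hX')

theorem degree_iff (hT : T.Facts) {D : Set ℕ}
    (hD : ∀ n : ℕ, 0 < n → ∃ d ∈ D, ∃ a b : ℕ, 0 < a ∧ 0 < b ∧ a ^ 2 * n = b ^ 2 * d) :
    (∀ X : T.Surf, Trivial X) ↔ ∀ X : T.Surf, (∃ d ∈ D, HasDegree X d) → Trivial X := by
  refine ⟨fun h X _ => h X, fun h X => ?_⟩
  obtain ⟨X', hs, hX'⟩ := move_degree hT hD X
  exact hs.trivial.2 (h X' hX')

theorem elliptic_iff (hT : T.Facts) :
    (∀ X : T.Surf, Isotropic X → Trivial X) ↔ ∀ X : T.Surf, Divisors X ![e, f] → Trivial X := by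
  constructor
  · rintro h X ⟨p, hp, hX⟩
    refine h X ⟨p, hp, e, fun h0 => ?_, hX 0, B_ee⟩
    have h1 := B_ef
    rw [h0, map_zero, LinearMap.zero_apply] at h1
    exact zero_ne_one h1
  · intro h X hX
    obtain ⟨X', hs, hX'⟩ := move_elliptic hT X hX
    exact hs.trivial.2 (h X' hX')

/-- independent rational divisor classes whose span contains the class `h` -/
theorem exists_family {r : ℕ} {p : V →ₗ[ℚ] ℂ} {v : Fin (r + 1) → V} (hv : LinearIndependent ℚ v)
    (hp : ∀ i, p (v i) = 0) {h : V} (hh : p h = 0) :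
    ∃ w : Fin (r + 1) → V, LinearIndependent ℚ w ∧ (∀ i, p (w i) = 0) ∧
      ∃ a : Fin (r + 1) → ℚ, Fintype.linearCombination ℚ w a = h := by
  by_cases h1 : h ∈ Submodule.span ℚ (Set.range v)
  · refine ⟨v, hv, hp, ?_⟩
    rw [← Fintype.range_linearCombination] at h1
    exact h1
  · refine ⟨Fin.cons h fun i => v i.castSucc, ?_, fun i => ?_, Pi.single 0 1, ?_⟩
    · refine linearIndependent_finCons.2 ⟨hv.comp _ (Fin.castSucc_injective r), fun h2 => h1 ?_⟩
      refine Submodule.span_mono ?_ h2
      rintro _ ⟨i, rfl⟩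
      exact ⟨i.castSucc, rfl⟩
    · refine Fin.cases ?_ (fun i => ?_) i
      · exact hh
      · exact hp _
    · rw [Fintype.linearCombination_apply_single, one_smul, Fin.cons_zero]

/-- Meyer's theorem: an indefinite rational quadratic form in five variables has a nontrivial
zero. -/
def Meyer : Prop :=
  ∀ Q : QuadraticForm ℚ (Fin 5 → ℚ), (∃ x, 0 < Q x) → (∃ x, Q x < 0) → ∃ x, x ≠ 0 ∧ Q x = 0

/-- rank at least five: isotropic classes -/
theorem isotropic_of_rank (hM : Meyer) (hT : T.Facts) (X : T.Surf) (hX : RankAtLeast X 5) :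
    Isotropic X := by
  obtain ⟨p, hp, v, hv, hpv⟩ := hX
  obtain ⟨h, hh, hpos, hodge⟩ := hT.ample X p hp
  obtain ⟨w, hw, hpw, a, ha⟩ := exists_family hv hpv hh
  set L := Fintype.linearCombination ℚ w with hL
  have hLinj : ∀ x, L x = 0 → x = 0 := fun x hx =>
    funext (Fintype.linearIndependent_iff.1 hw x hx)
  have hpL : ∀ x, p (L x) = 0 := fun x => by
    rw [hL, Fintype.linearCombination_apply, map_sum]
    exact Finset.sum_eq_zero fun i _ => by rw [map_smul, hpw, smul_zero]
  obtain ⟨x, hx0, hx⟩ := hM ((LinearMap.BilinMap.toQuadraticMap B).comp L) ⟨a, by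
      rw [QuadraticMap.comp_apply, LinearMap.BilinMap.toQuadraticMap_apply, ha]
      exact hpos⟩ (by
      -- a vector orthogonal to `h`
      have hker : ∃ y : Fin 5 → ℚ, y ≠ 0 ∧ B h (L y) = 0 := by
        have h1 : LinearMap.ker ((B h) ∘ₗ L) ≠ ⊥ := by
          intro h2
          have h3 := LinearMap.finrank_le_finrank_of_injective (LinearMap.ker_eq_bot.1 h2)
          rw [Module.finrank_fin_fun, Module.finrank_self] at h3
          omega
        obtain ⟨y, hy, hy0⟩ := (Submodule.ne_bot_iff _).1 h1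
        exact ⟨y, hy0, hy⟩
      obtain ⟨y, hy0, hy⟩ := hker
      refine ⟨y, ?_⟩
      rw [QuadraticMap.comp_apply, LinearMap.BilinMap.toQuadraticMap_apply]
      exact hodge (L y) (hpL y) hy fun h1 => hy0 (hLinj y h1))
  rw [QuadraticMap.comp_apply, LinearMap.BilinMap.toQuadraticMap_apply] at hx
  exact ⟨p, hp, L x, fun h1 => hx0 (hLinj x h1), hpL x, hx⟩

/-- rank at least four: all degrees -/
theorem degree_of_rank (hM : Meyer) (hT : T.Facts) (X : T.Surf) (hX : RankAtLeast X 4) {d : ℕ}
    (hd : 0 < d) : ∃ X' : T.Surf, Same X X' ∧ HasDegree X' d := by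
  obtain ⟨p, hp, v, hv, hpv⟩ := hX
  obtain ⟨h, hh, hpos, hodge⟩ := hT.ample X p hp
  obtain ⟨w, hw, hpw, a, ha⟩ := exists_family hv hpv hh
  have hd' : (0 : ℚ) < 2 * d := by positivity
  set L' := Fintype.linearCombination ℚ w with hL'
  have hLinj : ∀ x, L' x = 0 → x = 0 := fun x hx =>
    funext (Fintype.linearIndependent_iff.1 hw x hx)
  have hpL : ∀ x, p (L' x) = 0 := fun x => by
    rw [hL', Fintype.linearCombination_apply, map_sum]
    exact Finset.sum_eq_zero fun i _ => by rw [map_smul, hpw, smul_zero]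
  set L : (Fin 5 → ℚ) →ₗ[ℚ] V := L' ∘ₗ LinearMap.funLeft ℚ ℚ (Fin.castSucc : Fin 4 → Fin 5)
    with hL
  set Q : QuadraticForm ℚ (Fin 5 → ℚ) := (LinearMap.BilinMap.toQuadraticMap B).comp L -
    (2 * d : ℚ) • (QuadraticMap.sq (R := ℚ)).comp (LinearMap.proj (Fin.last 4)) with hQ
  have hQx : ∀ x, Q x = B (L x) (L x) - 2 * d * (x (Fin.last 4) * x (Fin.last 4)) := fun x => by
    rw [hQ, _root_.sub_apply, _root_.smul_apply, QuadraticMap.comp_apply,
      QuadraticMap.comp_apply, LinearMap.BilinMap.toQuadraticMap_apply, QuadraticMap.sq_apply,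
      smul_eq_mul]
    rfl
  have key : ∃ u : V, p u = 0 ∧ B u u = 2 * d := by
    obtain ⟨x, hx0, hx⟩ := hM Q ⟨Fin.snoc a 0, by
        have h1 : L (Fin.snoc a 0) = h := by
          rw [hL, LinearMap.comp_apply, ← ha]
          congr 1
          funext i
          rw [LinearMap.funLeft_apply, Fin.snoc_castSucc]
        rw [hQx, h1, Fin.snoc_last, mul_zero, mul_zero, sub_zero]
        exact hpos⟩ ⟨Fin.snoc 0 1, by
        have h1 : L (Fin.snoc 0 1) = 0 := by
          rw [hL, LinearMap.comp_apply]
          have : (LinearMap.funLeft ℚ ℚ (Fin.castSucc : Fin 4 → Fin 5))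
              (Fin.snoc (0 : Fin 4 → ℚ) (1 : ℚ)) = 0 := by
            funext i
            rw [LinearMap.funLeft_apply, Fin.snoc_castSucc]
          rw [this, map_zero]
        rw [hQx, h1, Fin.snoc_last, map_zero]
        linarith⟩
    rw [hQx] at hx
    set t := x (Fin.last 4) with ht
    by_cases ht0 : t = 0
    · -- an isotropic class
      have hz : L x ≠ 0 := fun h1 => by
        refine hx0 (funext fun i => ?_)
        refine Fin.lastCases ?_ (fun i => ?_) i
        · exact ht0
        · have h2 := hLinj _ h1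
          exact congrFun h2 i
      have hzz : B (L x) (L x) = 0 := by
        rw [ht0] at hx
        linarith
      have hpz : p (L x) = 0 := hpL _
      have hzh : B h (L x) ≠ 0 := fun h1 => by
        have h2 := hodge (L x) hpz h1 hz
        rw [hzz] at h2
        exact lt_irrefl _ h2
      refine ⟨h + ((2 * d - B h h) / (2 * B h (L x))) • L x, ?_, ?_⟩
      · rw [map_add, map_smul, hh, hpz, smul_zero, add_zero]
      · have h3 : B (L x) h = B h (L x) := B_symm _ _
        simp only [map_add, map_smul, LinearMap.add_apply, LinearMap.smul_apply, smul_eq_mul, h3,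
          hzz]
        field_simp
        ring
    · refine ⟨t⁻¹ • L x, ?_, ?_⟩
      · rw [map_smul]
        have : p (L x) = 0 := hpL _
        rw [this, smul_zero]
      · simp only [map_smul, LinearMap.smul_apply, smul_eq_mul]
        have h4 : B (L x) (L x) = 2 * d * (t * t) := by linarith
        rw [h4]
        field_simp
  obtain ⟨u, hpu, hu⟩ := key
  obtain ⟨X', hs, q, hq, hX'⟩ := move hT X ![deg d] (by
    rw [Matrix.det_fin_one, Matrix.of_apply, Matrix.cons_val_zero, B_deg]
    exact hd'.ne') ⟨![u], ⟨p, hp, fun i => by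
      fin_cases i
      exact hpu⟩, fun i j => by
      fin_cases i
      fin_cases j
      change B u u = B (deg d) (deg d)
      rw [hu, B_deg]⟩
  exact ⟨X', hs, q, hq, deg d, primitive_deg d, hX' 0, B_deg d⟩

/-- every square class contains a squarefree number -/
theorem squarefree_classes (n : ℕ) (hn : 0 < n) :
    ∃ d ∈ {d : ℕ | Squarefree d}, ∃ a b : ℕ, 0 < a ∧ 0 < b ∧ a ^ 2 * n = b ^ 2 * d := by
  obtain ⟨a, b, h1, h2⟩ := Nat.sq_mul_squarefree n
  refine ⟨a, h2, 1, b, one_pos, ?_, by rw [one_pow, one_mul, h1]⟩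
  rcases Nat.eq_zero_or_pos b with h | h
  · rw [h] at h1
    simp at h1
    omega
  · exact h

end Pool.Agent.Q28.KI
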