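import Mathlib

/-!
# Witt's theorem

Two families of vectors of a rational quadratic space with the same nondegenerate matrix of scalar
products are conjugate under the orthogonal group (a product of reflections).
-/

namespace Pool.Agent.Q28.KI

open Module LinearMap

variable {V : Type*} [AddCommGroup V] [Module ℚ V] {B : LinearMap.BilinForm ℚ V}

/-- isometries of the form `B` -/
def IsIsometry (B : LinearMap.BilinForm ℚ V) (g : V ≃ₗ[ℚ] V) : Prop :=
  ∀ x y, B (g x) (g y) = B x y

theorem IsIsometry.trans {g h : V ≃ₗ[ℚ] V} (hg : IsIsometry B g) (hh : IsIsometry B h) :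
    IsIsometry B (g.trans h) := fun x y => by
  rw [LinearEquiv.trans_apply, LinearEquiv.trans_apply, hh, hg]

theorem IsIsometry.refl : IsIsometry B (LinearEquiv.refl ℚ V) := fun _ _ => rfl

theorem IsIsometry.symm {g : V ≃ₗ[ℚ] V} (hg : IsIsometry B g) : IsIsometry B g.symm := fun x y => by
  have := hg (g.symm x) (g.symm y)
  rw [LinearEquiv.apply_symm_apply, LinearEquiv.apply_symm_apply] at this
  exact this.symm

/-- reflections -/
theorem exists_refl (hB : ∀ x y, B x y = B y x) (u : V) (hu : B u u ≠ 0) :
    ∃ s : V ≃ₗ[ℚ] V, IsIsometry B s ∧ ∀ x, s x = x - (2 * B u x / B u u) • u := by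
  have h2 : ((2 / B u u) • B u) u = 2 := by
    rw [LinearMap.smul_apply, smul_eq_mul, div_mul_cancel₀ _ hu]
  have h3 : ∀ x, Module.reflection h2 x = x - (2 * B u x / B u u) • u := fun x => by
    rw [Module.reflection_apply, LinearMap.smul_apply, smul_eq_mul, div_mul_eq_mul_div]
  refine ⟨Module.reflection h2, fun x y => ?_, h3⟩
  rw [h3, h3]
  have h4 : B x u = B u x := hB x u
  simp only [map_sub, map_smul, LinearMap.sub_apply, LinearMap.smul_apply, smul_eq_mul, h4]
  field_simp
  ring

/-- two vectors of the same nonzero norm -/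
theorem exists_map (hB : ∀ x y, B x y = B y x) {u v : V} (hu : B u u ≠ 0) (huv : B u u = B v v) :
    ∃ g : V ≃ₗ[ℚ] V, IsIsometry B g ∧ g u = v ∧ ∀ x, B x u = 0 → B x v = 0 → g x = x := by
  have hs := hB
  by_cases h : B (u - v) (u - v) = 0
  · have h5 : B (u + v) (u + v) = 4 * B u u := by
      simp only [map_sub, map_add, LinearMap.sub_apply, LinearMap.add_apply] at h ⊢
      rw [hs v u] at *
      linarith
    have h6 : B (u + v) (u + v) ≠ 0 := by
      rw [h5]
      exact mul_ne_zero (by norm_num) hu
    have h7 : B v v ≠ 0 := huv ▸ hu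
    obtain ⟨s, hs1, hs2⟩ := exists_refl hB (u + v) h6
    obtain ⟨t, ht1, ht2⟩ := exists_refl hB v h7
    refine ⟨s.trans t, hs1.trans ht1, ?_, fun x hx hy => ?_⟩
    · have h8 : 2 * B (u + v) u / B (u + v) (u + v) = 1 := by
        rw [div_eq_one_iff_eq h6, h5]
        have h9 := h
        simp only [map_sub, map_add, LinearMap.sub_apply, LinearMap.add_apply] at h9 ⊢
        rw [hs v u] at *
        linarith
      rw [LinearEquiv.trans_apply, hs2, h8, ht2]
      have h10 : B v (u - (1 : ℚ) • (u + v)) = - B v v := by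
        rw [one_smul, sub_add_cancel_left, map_neg]
      rw [h10]
      have h11 : 2 * -(B v) v / (B v) v = -2 := by
        field_simp
      rw [h11, one_smul]
      module
    · rw [LinearEquiv.trans_apply, hs2, ht2]
      have h12 : B (u + v) x = 0 := by
        rw [map_add, LinearMap.add_apply, hs u x, hs v x, hx, hy, add_zero]
      rw [h12]
      simp only [mul_zero, zero_div, zero_smul, sub_zero]
      rw [hs v x, hy]
      simp
  · obtain ⟨s, hs1, hs2⟩ := exists_refl hB (u - v) h
    refine ⟨s, hs1, ?_, fun x hx hy => ?_⟩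
    · have h8 : 2 * B (u - v) u / B (u - v) (u - v) = 1 := by
        rw [div_eq_one_iff_eq h]
        simp only [map_sub, LinearMap.sub_apply]
        rw [hs v u]
        linarith
      rw [hs2, h8, one_smul, sub_sub_cancel]
    · rw [hs2]
      have h12 : B (u - v) x = 0 := by
        rw [map_sub, LinearMap.sub_apply, hs u x, hs v x, hx, hy, sub_zero]
      rw [h12]
      simp

/-- orthogonal families -/
theorem witt_orthogonal (hB : ∀ x y, B x y = B y x) {n : ℕ} (w v : Fin n → V)
    (hw : ∀ i j, i ≠ j → B (w i) (w j) = 0) (hw' : ∀ i, B (w i) (w i) ≠ 0)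
    (h : ∀ i j, B (v i) (v j) = B (w i) (w j)) :
    ∃ g : V ≃ₗ[ℚ] V, IsIsometry B g ∧ ∀ i, g (w i) = v i := by
  induction n with
  | zero => exact ⟨LinearEquiv.refl ℚ V, IsIsometry.refl, fun i => i.elim0⟩
  | succ n ih =>
    obtain ⟨g, hg, hgw⟩ := ih (fun i => w i.castSucc) (fun i => v i.castSucc)
      (fun i j hij => hw _ _ (by simpa using hij)) (fun i => hw' _) (fun i j => h _ _)
    obtain ⟨g', hg', h1, h2⟩ := exists_map hB (u := g (w (Fin.last n))) (v := v (Fin.last n))
      (by rw [hg]; exact hw' _) (by rw [hg, h])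
    refine ⟨g.trans g', hg.trans hg', fun i => ?_⟩
    rw [LinearEquiv.trans_apply]
    induction i using Fin.lastCases with
    | last => exact h1
    | cast i =>
      rw [hgw]
      refine h2 _ ?_ ?_
      · rw [← hgw, hg]
        exact hw _ _ (Fin.castSucc_lt_last i).ne
      · rw [h]
        exact hw _ _ (Fin.castSucc_lt_last i).ne

/-- **Witt's theorem** for families with a nondegenerate matrix of scalar products -/
theorem witt (hB : ∀ x y, B x y = B y x) {r : ℕ} (m v : Fin r → V)
    (hd : (Matrix.of fun i j => B (m i) (m j)).det ≠ 0)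
    (h : ∀ i j, B (v i) (v j) = B (m i) (m j)) :
    ∃ g : V ≃ₗ[ℚ] V, IsIsometry B g ∧ ∀ i, g (m i) = v i := by
  classical
  set A : Matrix (Fin r) (Fin r) ℚ := Matrix.of fun i j => B (m i) (m j) with hA
  set T : (Fin r → ℚ) →ₗ[ℚ] V := Fintype.linearCombination ℚ m with hT
  set T' : (Fin r → ℚ) →ₗ[ℚ] V := Fintype.linearCombination ℚ v with hT'
  have e1 : ∀ x y, Matrix.toBilin' A x y = B (T x) (T y) := fun x y => by
    rw [Matrix.toBilin'_apply, hT, Fintype.linearCombination_apply, Fintype.linearCombination_apply]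
    simp only [map_sum, LinearMap.sum_apply, map_smul, LinearMap.smul_apply, smul_eq_mul,
      Finset.mul_sum]
    rw [Finset.sum_comm]
    refine Finset.sum_congr rfl fun j _ => Finset.sum_congr rfl fun i _ => ?_
    rw [hA, Matrix.of_apply]
    ring
  have e2 : ∀ x y, Matrix.toBilin' A x y = B (T' x) (T' y) := fun x y => by
    rw [Matrix.toBilin'_apply, hT', Fintype.linearCombination_apply,
      Fintype.linearCombination_apply]
    simp only [map_sum, LinearMap.sum_apply, map_smul, LinearMap.smul_apply, smul_eq_mul,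
      Finset.mul_sum]
    rw [Finset.sum_comm]
    refine Finset.sum_congr rfl fun j _ => Finset.sum_congr rfl fun i _ => ?_
    rw [hA, Matrix.of_apply, h]
    ring
  have hsymm : LinearMap.IsSymm (Matrix.toBilin' A) := ⟨fun x y => by
    rw [RingHom.id_apply, e1, e1]
    exact hB _ _⟩
  have : Invertible (2 : ℚ) := invertibleOfNonzero two_ne_zero
  obtain ⟨b, hb⟩ := LinearMap.BilinForm.exists_orthogonal_basis hsymm
  have hnd : (Matrix.toBilin' A).Nondegenerate :=
    LinearMap.BilinForm.nondegenerate_toBilin'_of_det_ne_zero' A hd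
  have hne : ∀ i, Matrix.toBilin' A (b i) (b i) ≠ 0 := fun i =>
    hb.not_isOrtho_basis_self_of_separatingLeft hnd.1 i
  obtain ⟨g, hg, hgb⟩ := witt_orthogonal hB (fun i => T (b i)) (fun i => T' (b i))
    (fun i j hij => by rw [← e1]; exact hb hij) (fun i => by rw [← e1]; exact hne i)
    (fun i j => by rw [← e1, ← e2])
  have hcomp : g.toLinearMap ∘ₗ T = T' := b.ext fun i => hgb i
  refine ⟨g, hg, fun i => ?_⟩
  have h1 := LinearMap.congr_fun hcomp (Pi.single i 1)
  rw [LinearMap.comp_apply, hT, hT', Fintype.linearCombination_apply_single,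
    Fintype.linearCombination_apply_single, one_smul, one_smul] at h1
  exact h1

end Pool.Agent.Q28.KI
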